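import Pool.Agent.Helper78.LK.Goals

namespace Pool.Agent.Helper31.LK

open Pool.Agent.Helper50.KP Pool.Agent.Helper78.LK

theorem gTWR (hAPP : APP) : TWR := by
  intro D s p c n X Y q h A B hA
  induction n with
  | zero =>
    simp only [tw, List.range_zero, List.map_nil, Finset.range_zero, Finset.sum_empty]
    exact Run.nil _
  | succ n ih =>
    have h1 := ih (fun i hi => h i (Nat.lt_succ_of_lt hi))
    have h2 := h n (Nat.lt_succ_self n)
    have e : tw s p c (n + 1) = tw s p c n ++ [(Kind.X s, p, c + 1 + n)] := by
      simp only [tw, List.range_succ, List.map_append, List.map_cons, List.map_nil]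
    rw [e, Finset.sum_range_succ]
    rw [hAPP.1]
    refine ⟨_, _, _, h1, ?_, rfl⟩
    have h3 := Run.cons (B := B) (q := 0) hA h2 (Run.nil (A ++ pr X Y (n + 1) ++ B))
    simpa using h3

end Pool.Agent.Helper31.LK
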